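import Mathlib
import Pool.Agent.Helper35.PI2.St

/-!
# Module GX of project PI2 (MP_b2fa09_gt): time derivative of the squared second fundamental form
-/

namespace Helper78.PI2

open Helper35.PI Helper35.PI2
open scoped ContDiff Manifold Topology ENNReal BigOperators
open MeasureTheory Set Filter

theorem hasDerivAt_jt {n : ℕ} {V : Type*} [NormedAddCommGroup V] [NormedSpace ℝ V]
    (φ : EE n × ℝ → V) (t₀ : ℝ) (hφ : DifferentiableAt ℝ φ (0, t₀)) :
    HasDerivAt (fun s : ℝ => φ ((0 : EE n), s)) (jt φ (0, t₀)) t₀ := by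
  have h1 : HasDerivAt (fun s : ℝ => ((0 : EE n), s)) ((0 : EE n), (1 : ℝ)) t₀ :=
    (hasDerivAt_const t₀ (0 : EE n)).prodMk (hasDerivAt_id t₀)
  exact hφ.hasFDerivAt.comp_hasDerivAt t₀ h1

/-- module GX -/
theorem hGX (hGH : StGH) (hG0 : StG0) (hG1 : StG1) : StGX := by
  intro n N x₀ L u t₀ hu A hA
  obtain ⟨-, -, -, -, hAf⟩ := hGH n N x₀ L u t₀ hu A _ hA rfl
  have hG := hG0 n N x₀ L u t₀ hu
  obtain ⟨-, -, hperp, -⟩ := hG1 n N x₀ L u t₀ hu
  have hGd : ∀ i j, DifferentiableAt ℝ (GIf x₀ L u i j) (0, t₀) := fun i j =>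
    (hG i j).1.differentiableAt (by simp)
  have hAd : ∀ i j, DifferentiableAt ℝ (Af x₀ L u i j) (0, t₀) := fun i j =>
    (hAf i j).1.differentiableAt (by simp)
  have hX : Xf x₀ L u = fun z => ∑ i, ∑ j, ∑ k, ∑ l,
      GIf x₀ L u i k z * GIf x₀ L u j l z * (inner ℝ (Af x₀ L u i j z) (Af x₀ L u k l z) : ℝ) := rfl
  have hXd : DifferentiableAt ℝ (Xf x₀ L u) (0, t₀) := by
    rw [hX]
    refine DifferentiableAt.fun_sum fun i _ => DifferentiableAt.fun_sum fun j _ =>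
      DifferentiableAt.fun_sum fun k _ => DifferentiableAt.fun_sum fun l _ => ?_
    exact ((hGd i k).mul (hGd j l)).mul ((hAd i j).inner ℝ (hAd k l))
  have h1 := hasDerivAt_jt (Xf x₀ L u) t₀ hXd
  have h2 : HasDerivAt (fun s : ℝ => Xf x₀ L u ((0 : EE n), s))
      (∑ i, ∑ j, ∑ k, ∑ l, ((jt (GIf x₀ L u i k) (0, t₀) * GIf x₀ L u j l (0, t₀)
          + GIf x₀ L u i k (0, t₀) * jt (GIf x₀ L u j l) (0, t₀))
            * (inner ℝ (Af x₀ L u i j (0, t₀)) (Af x₀ L u k l (0, t₀)) : ℝ)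
        + GIf x₀ L u i k (0, t₀) * GIf x₀ L u j l (0, t₀)
          * ((inner ℝ (Af x₀ L u i j (0, t₀)) (jt (Af x₀ L u k l) (0, t₀)) : ℝ)
            + (inner ℝ (jt (Af x₀ L u i j) (0, t₀)) (Af x₀ L u k l (0, t₀)) : ℝ)))) t₀ := by
    rw [hX]
    refine HasDerivAt.fun_sum fun i _ => HasDerivAt.fun_sum fun j _ =>
      HasDerivAt.fun_sum fun k _ => HasDerivAt.fun_sum fun l _ => ?_
    exact ((hasDerivAt_jt _ t₀ (hGd i k)).mul (hasDerivAt_jt _ t₀ (hGd j l))).mul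
      ((hasDerivAt_jt _ t₀ (hAd i j)).inner ℝ (hasDerivAt_jt _ t₀ (hAd k l)))
  rw [h1.unique h2]
  have hterm : ∀ i j : Fin n, (∑ k, ∑ l, ((jt (GIf x₀ L u i k) (0, t₀) * GIf x₀ L u j l (0, t₀)
          + GIf x₀ L u i k (0, t₀) * jt (GIf x₀ L u j l) (0, t₀))
            * (inner ℝ (Af x₀ L u i j (0, t₀)) (Af x₀ L u k l (0, t₀)) : ℝ)
        + GIf x₀ L u i k (0, t₀) * GIf x₀ L u j l (0, t₀)
          * ((inner ℝ (Af x₀ L u i j (0, t₀)) (jt (Af x₀ L u k l) (0, t₀)) : ℝ)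
            + (inner ℝ (jt (Af x₀ L u i j) (0, t₀)) (Af x₀ L u k l (0, t₀)) : ℝ))))
      = 2 * (inner ℝ (A i j) (ut u (0, t₀) i j) : ℝ) := by
    intro i j
    have hw : ∀ x : EE n, (inner ℝ (A i j) (L x) : ℝ) = 0 := by
      intro x
      rw [hA]
      exact hperp i j x
    have hval := (hAf i j).2.1
    have ht := (hAf i j).2.2.2 (A i j) hw
    rw [Finset.sum_eq_single i, Finset.sum_eq_single j]
    · rw [(hG i i).2.1, (hG j j).2.1, (hG i i).2.2.2.1, (hG j j).2.2.2.1, if_pos rfl, if_pos rfl,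
        hval, real_inner_comm (A i j) (jt (Af x₀ L u i j) (0, t₀)), ht]
      ring
    · intro l _ hl
      rw [(hG i i).2.1, (hG j l).2.1, (hG i i).2.2.2.1, (hG j l).2.2.2.1, if_neg (Ne.symm hl)]
      ring
    · intro h
      exact absurd (Finset.mem_univ j) h
    · intro k _ hk
      refine Finset.sum_eq_zero fun l _ => ?_
      rw [(hG i k).2.1, (hG i k).2.2.2.1, (hG j l).2.2.2.1, if_neg (Ne.symm hk)]
      ring
    · intro h
      exact absurd (Finset.mem_univ i) h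
  rw [Finset.mul_sum]
  refine Finset.sum_congr rfl fun i _ => ?_
  rw [Finset.mul_sum]
  exact Finset.sum_congr rfl fun j _ => hterm i j

end Helper78.PI2
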